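import Pool.Agent.Q246.TZ.Prop
import Pool.Agent.Q246.VR.Emb

/-!
# Tate's conjecture on the pole: descent from disjoint extensions and from almost wide families

`X` is a smooth projective variety of dimension `d` over a number field `K`, `0 ≤ m ≤ d`, `N` the
`2m`-th Betti number, and `V` with the action `ρ` of the absolute Galois group of `K` is a part of
`H^{2m}(X)(m)` (`IsPart`), for instance the space `A^m(X) ⊗ ℚ` of the classes of the algebraic cycles
defined over the algebraic closure; for `m = 1` it is `NS(X) ⊗ ℚ`.  For a number field `F ⊇ K` in the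
algebraic closure `rank ρ F` is the dimension of the invariants of the absolute Galois group of `F`, that
is, the rank of the group of the classes defined over `F`.  The Euler systems, the Euler product `LFun`
and `size (2 * m) B ε = log |L(m + 1 + ε)| / log(1/ε)` are those of `Pool.Agent.W353.EF.Defs`; `IsPart` and
`rank` are in `Pool.Agent.W353.TD.Defs`.
-/

set_option autoImplicit false

namespace Pool.Agent.Results.MP_1f4fc7_nt.DisjointExtensions

open NumberField IsDedekindDomain Filter Topology Polynomial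
open Pool.Agent.W353.EF (LFun IsEulerSystem size)
open Pool.Agent.W353.TD (IsPart rank)

/-- A finite extension of `K` inside the algebraic closure. -/
structure Extension (K : Type) [Field K] where
  /-- the field -/
  field : IntermediateField K (AlgebraicClosure K)
  finite : FiniteDimensional K field

section
variable {K : Type} [Field K]

/-- The trivial extension `K`. -/
noncomputable def base (K : Type) [Field K] : Extension K := ⟨⊥, inferInstance⟩

/-- The degree over `K`. -/
noncomputable def deg (F : Extension K) : ℕ := Module.finrank K F.field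

/-- `F` and `F'` are linearly disjoint over `K`. -/
def Disj (F F' : Extension K) : Prop := F.field.LinearDisjoint F'.field

/-- The automorphisms of the algebraic closure which fix no member of `𝓕` contained in `L`. -/
def missed (𝓕 : Set (Extension K)) (L : Extension K) : Set Gal(AlgebraicClosure K/K) :=
  {σ | ∀ F ∈ 𝓕, F.field ≤ L.field → ¬ ∀ x ∈ F.field, σ x = x}

/-- For a normal extension `L` this is the proportion of the elements of `Gal(L/K)` which fix no member
of `𝓕` contained in `L`. -/
noncomputable def missRate (𝓕 : Set (Extension K)) (L : Extension K) : ℝ :=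
  (Nat.card ((QuotientGroup.mk : Gal(AlgebraicClosure K/K) →
    Gal(AlgebraicClosure K/K) ⧸ L.field.fixingSubgroup) '' missed 𝓕 L) : ℝ) / deg L

/-- `𝓕` is closed under passing to larger finite extensions. -/
def ClosedUp (𝓕 : Set (Extension K)) : Prop :=
  ∀ F ∈ 𝓕, ∀ F' : Extension K, F.field ≤ F'.field → F' ∈ 𝓕

instance numberField [NumberField K] (F : Extension K) : NumberField F.field :=
  haveI := F.finite
  NumberField.of_module_finite K F.field

end

section
variable {K : Type} [Field K] [NumberField K] {n : ℕ} (X : Set (MvPolynomial (Fin n) (𝓞 K)))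
  (d m N : ℕ) {V : Type} [AddCommGroup V] [Module ℚ V]
  (ρ : Representation ℚ Gal(AlgebraicClosure K/K) V)

/-- `L(H^{2m}(X_F), m + 1 + ε) = ε ^ (-r + o(1))` as `ε → 0+`, where `r` is the rank over `F`: Tate's
conjecture for `X_F`, as far as it makes sense without continuation. -/
def WeakTate (F : Extension K) : Prop :=
  ∀ B : HeightOneSpectrum (𝓞 F.field) → ℂ[X], IsEulerSystem X d (2 * m) N B →
    Tendsto (size (2 * m) B) (𝓝[>] 0) (𝓝 (rank ρ F.field : ℝ))

/-- If `L(H^{2m}(X_F), s)` has a meromorphic continuation to a neighbourhood of `m + 1`, then it has a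
pole there whose order is the rank over `F`. -/
def PoleOrder (F : Extension K) : Prop :=
  ∀ B : HeightOneSpectrum (𝓞 F.field) → ℂ[X], IsEulerSystem X d (2 * m) N B → ∀ Λ : ℂ → ℂ,
    MeromorphicAt Λ (m + 1) →
    (∀ᶠ s in 𝓝 ((m : ℂ) + 1), (m : ℝ) + 1 < s.re → Λ s = LFun B s) →
    meromorphicOrderAt Λ (m + 1) = ((-rank ρ F.field : ℤ) : WithTop ℤ)

/-- Let `s = N - dim V`.  For all small `ε` the value of `log |L(m + 1 + ε)| / log(1/ε)` for
`L(H^{2m}(X_F), s)` differs from the rank over `F` by at most `s q + η`, `η > 0` arbitrary. -/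
def NearSize (F : Extension K) (q : ℝ) : Prop :=
  ∀ B : HeightOneSpectrum (𝓞 F.field) → ℂ[X], IsEulerSystem X d (2 * m) N B →
    ∀ η : ℝ, 0 < η → ∀ᶠ ε : ℝ in 𝓝[>] 0,
      |size (2 * m) B ε - rank ρ F.field| ≤ ((N - Module.finrank ℚ V : ℕ) : ℝ) * q + η

/-- Let `s = N - dim V`.  If `L(H^{2m}(X_F), s)` has a meromorphic continuation to a neighbourhood of
`m + 1`, then it has a pole of an order `r` which differs from the rank over `F` by at most `s q`. -/
def NearOrder (F : Extension K) (q : ℝ) : Prop :=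
  ∀ B : HeightOneSpectrum (𝓞 F.field) → ℂ[X], IsEulerSystem X d (2 * m) N B → ∀ Λ : ℂ → ℂ,
    MeromorphicAt Λ (m + 1) →
    (∀ᶠ s in 𝓝 ((m : ℂ) + 1), (m : ℝ) + 1 < s.re → Λ s = LFun B s) →
    ∃ r : ℤ, meromorphicOrderAt Λ (m + 1) = ((-r : ℤ) : WithTop ℤ) ∧
      |(r : ℝ) - rank ρ F.field| ≤ ((N - Module.finrank ℚ V : ℕ) : ℝ) * q

/-- Both bounds for `X` over `K`. -/
def NearTate (q : ℝ) : Prop := NearSize X d m N ρ (base K) q ∧ NearOrder X d m N ρ (base K) q

/-- Finitely many, pairwise linearly disjoint extensions `F_k` of degrees `d_k ≥ 2` with `WeakTate`: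
`NearTate` with `q = (1 + ∑ 1 / (d_k - 1))^(-1/2)`. -/
def DisjointLaw : Prop :=
  ∀ (l : ℕ) (F : Fin l → Extension K), (∀ k k', k ≠ k' → Disj (F k) (F k')) →
    (∀ k, 2 ≤ deg (F k)) → (∀ k, WeakTate X d m N ρ (F k)) →
    NearTate X d m N ρ (1 / √(1 + ∑ k, 1 / ((deg (F k) : ℝ) - 1)))

/-- Infinitely many, pairwise linearly disjoint extensions `F_k` of degrees `d_k ≥ 2` with `WeakTate`
and `∑ 1 / (d_k - 1) = ∞`: `WeakTate` for `K`. -/
def SequenceLaw : Prop :=
  ∀ F : ℕ → Extension K, (∀ k k', k ≠ k' → Disj (F k) (F k')) → (∀ k, 2 ≤ deg (F k)) →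
    (¬ Summable fun k => 1 / ((deg (F k) : ℝ) - 1)) →
    (∀ k, WeakTate X d m N ρ (F k)) → WeakTate X d m N ρ (base K)

/-- `WeakTate` for a family closed under passing to larger extensions: `NearTate` with the proportion
`q` of the automorphisms of a finite normal extension which fix no member of the family, and `WeakTate`
for `K` if these proportions can be made arbitrarily small. -/
def FamilyLaw : Prop :=
  ∀ 𝓕 : Set (Extension K), ClosedUp 𝓕 → (∀ F ∈ 𝓕, WeakTate X d m N ρ F) →
    (∀ L : Extension K, Normal K L.field → NearTate X d m N ρ (missRate 𝓕 L)) ∧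
    ((∀ q : ℝ, 0 < q → ∃ L : Extension K, Normal K L.field ∧ missRate 𝓕 L ≤ q) →
      WeakTate X d m N ρ (base K))

/-- `WeakTate` for all totally complex extensions of a degree divisible by `M`: `WeakTate` for `K`. -/
def ComplexLaw : Prop :=
  ∀ M : ℕ, 0 < M → (∀ F : Extension K, IsEmpty (F.field →+* ℝ) → M ∣ deg F →
    WeakTate X d m N ρ F) → WeakTate X d m N ρ (base K)

end

/-! ## Proofs -/

section
variable {K : Type} [Field K] [NumberField K] {n : ℕ} {X : Set (MvPolynomial (Fin n) (𝓞 K))}
  {d m N : ℕ} {V : Type} [AddCommGroup V] [Module ℚ V]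
  {ρ : Representation ℚ Gal(AlgebraicClosure K/K) V}

theorem pt (m : ℕ) : ((2 * m : ℕ) : ℂ) / 2 + 1 = (m : ℂ) + 1 := by
  push_cast
  ring

theorem ptR (m : ℕ) : ((2 * m : ℕ) : ℝ) / 2 + 1 = (m : ℝ) + 1 := by
  push_cast
  ring

theorem order_size {F : Extension K}
    {B : HeightOneSpectrum (𝓞 F.field) → ℂ[X]} (hB : IsEulerSystem X d (2 * m) N B) {Λ : ℂ → ℂ}
    (hΛ : MeromorphicAt Λ (m + 1))
    (hΛ' : ∀ᶠ s in 𝓝 ((m : ℂ) + 1), (m : ℝ) + 1 < s.re → Λ s = LFun B s) :
    ∃ r : ℤ, meromorphicOrderAt Λ (m + 1) = ((-r : ℤ) : WithTop ℤ) ∧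
      Tendsto (size (2 * m) B) (𝓝[>] 0) (𝓝 (r : ℝ)) := by
  rw [← pt] at hΛ hΛ' ⊢
  rw [← ptR] at hΛ'
  obtain ⟨k, h1, h2⟩ := Pool.Agent.Q246.TZ.order_int hB hΛ hΛ'
  refine ⟨-k, by rw [h1, neg_neg], ?_⟩
  push_cast
  exact h2

theorem pole_of_weak {F : Extension K} (h : WeakTate X d m N ρ F) : PoleOrder X d m N ρ F := by
  intro B hB Λ hΛ hΛ'
  obtain ⟨r, h1, h2⟩ := order_size hB hΛ hΛ'
  have h3 := tendsto_nhds_unique h2 (h B hB)
  have h4 : r = (rank ρ F.field : ℤ) := by exact_mod_cast h3
  rw [h1, h4]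

theorem near_of {q : ℝ} (h : NearSize X d m N ρ (base K) q) : NearTate X d m N ρ q := by
  refine ⟨h, fun B hB Λ hΛ hΛ' => ?_⟩
  obtain ⟨r, h1, h2⟩ := order_size hB hΛ hΛ'
  refine ⟨r, h1, le_of_forall_pos_le_add fun η hη => ?_⟩
  have h3 := (h2.sub_const (rank ρ (base K).field : ℝ)).abs
  exact le_of_tendsto h3 (h B hB η hη)

variable [FiniteDimensional ℚ V]

theorem disjointLaw (hm : m ≤ d) (hV : IsPart X d m N ρ) : DisjointLaw X d m N ρ := by
  intro l F hdis hd hW
  exact near_of fun B hB η hη => @Pool.Agent.Q246.TZ.disj_bound K _ _ n d m N X V _ _ _ ρ hm hV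
    (numberField (base K)) (Fin l) _ (fun k => (F k).field) _ hdis hd (fun k => hW k) B hB η hη

theorem sequenceLaw (hm : m ≤ d) (hV : IsPart X d m N ρ) : SequenceLaw X d m N ρ := by
  intro F hdis hd hsum hW
  exact @Pool.Agent.Q246.TZ.weak_of_seq K _ _ n d m N X V _ _ _ ρ hm hV
    (numberField (base K)) (fun k => (F k).field) _ hdis hd (fun k => hW k) hsum

theorem familyLaw (hm : m ≤ d) (hV : IsPart X d m N ρ) : FamilyLaw X d m N ρ := by
  intro 𝓕 hF hW
  let 𝓖 : Set (IntermediateField K (AlgebraicClosure K)) := Extension.field '' 𝓕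
  have hG : Pool.Agent.Q246.TZ.Up 𝓖 := by
    refine ⟨?_, ?_⟩
    · rintro _ ⟨F, -, rfl⟩
      exact F.finite
    · rintro _ ⟨F, hFm, rfl⟩ F' hfd hle
      exact ⟨⟨F', hfd⟩, hF F hFm ⟨F', hfd⟩ hle, rfl⟩
  have hWG : ∀ F ∈ 𝓖, ∀ [NumberField F], Pool.Agent.Q246.TZ.Weak X d m N ρ F := by
    rintro _ ⟨F, hFm, rfl⟩ _
    exact hW F hFm
  have hrate : ∀ L : Extension K, Normal K L.field → missRate 𝓕 L =
      (Nat.card (Pool.Agent.Q246.TZ.Missed 𝓖 L.field) : ℝ) / Nat.card (L.field ≃ₐ[K] L.field) := by
    intro L hLn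
    have hLf := L.finite
    rw [← Pool.Agent.Q246.TZ.missed_ratio]
    have h1 : missed 𝓕 L = Pool.Agent.Q246.TZ.MissedG 𝓖 L.field := by
      ext σ
      constructor
      · rintro h _ ⟨F, hFm, rfl⟩ hle
        exact h F hFm hle
      · intro h F hFm hle
        exact h _ ⟨F, hFm, rfl⟩ hle
    unfold missRate
    rw [h1]
    rfl
  have hnear : ∀ L : Extension K, Normal K L.field →
      NearSize X d m N ρ (base K) (missRate 𝓕 L) := by
    intro L hLn B hB η hη
    have hLf := L.finite
    rw [hrate L hLn]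
    exact @Pool.Agent.Q246.TZ.family_bound K _ _ n d m N X V _ _ _ ρ hm hV
      (numberField (base K)) 𝓖 hG (fun F hFm _ => hWG F hFm) L.field _ _ B hB η hη
  refine ⟨fun L hL => near_of (hnear L hL), ?_⟩
  intro h B hB
  rw [Metric.tendsto_nhds]
  intro η hη
  set s : ℝ := ((N - Module.finrank ℚ V : ℕ) : ℝ) with hs
  have hs0 : 0 ≤ s := Nat.cast_nonneg _
  obtain ⟨L, hLn, hq⟩ := h (η / (4 * (s + 1))) (by positivity)
  have h1 := hnear L hLn B hB (η / 4) (by positivity)
  have h2 : s * missRate 𝓕 L ≤ η / 4 := by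
    calc s * missRate 𝓕 L ≤ s * (η / (4 * (s + 1))) := mul_le_mul_of_nonneg_left hq hs0
      _ = (η / 4) * (s / (s + 1)) := by field_simp
      _ ≤ (η / 4) * 1 := by
        refine mul_le_mul_of_nonneg_left ?_ (by positivity)
        rw [div_le_one (by positivity)]
        linarith
      _ = η / 4 := mul_one _
  filter_upwards [h1] with ε hε
  rw [Real.dist_eq]
  linarith

theorem complexLaw (hm : m ≤ d) (hV : IsPart X d m N ρ) : ComplexLaw X d m N ρ := by
  intro M hM hW
  exact @Pool.Agent.Q246.TZ.weak_of_awide K _ _ n d m N X V _ _ _ ρ hm hV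
    (numberField (base K)) _ (Pool.Agent.Q246.VR.aWide_fam (K := K) hM)
    fun F hF _ => hW ⟨F, hF.1⟩ hF.2.1 hF.2.2

end

/-- **Tate's conjecture on the pole descends from disjoint extensions and from almost wide families.**
Let `X` be a smooth projective variety of dimension `d` over a number field `K`, `0 ≤ m ≤ d`, `V` a part of
`H^{2m}(X)(m)`, for instance `NS(X) ⊗ ℚ` for `m = 1`, and `s = N - dim V`.  `WeakTate` for `F ⊇ K` says that
`L(H^{2m}(X_F), m + 1 + ε) = ε^(-r + o(1))` with the rank `r` over `F`.  No continuation is assumed.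
1. Let `F_1, …, F_l` be pairwise linearly disjoint extensions of `K` of degrees `d_k ≥ 2` with `WeakTate`.
Then `log |L(m + 1 + ε)| / log(1/ε)` for `X/K` differs from the rank by at most
`s (1 + ∑ 1 / (d_k - 1))^(-1/2) + η` for small `ε`, and the order of the pole, if there is a continuation,
differs from the rank by at most `s (1 + ∑ 1 / (d_k - 1))^(-1/2)`: it is the rank if
`∑ 1 / (d_k - 1) > s² - 1`, for instance for `s²` quadratic extensions.
2. If `WeakTate` holds for infinitely many pairwise linearly disjoint extensions with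
`∑ 1 / (d_k - 1) = ∞`, for instance of bounded degree, then it holds for `K`.
3. Let `WeakTate` hold for a family of finite extensions closed under passing to larger ones.  Then the
bounds of 1. hold with `s q` for the proportion `q` of the automorphisms of any finite normal extension
`L/K` fixing no member of the family contained in `L`; if `q` can be made arbitrarily small, then
`WeakTate` holds for `K`.
4. If `WeakTate` holds for all totally complex extensions of a degree divisible by `M`, then for `K`.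
5. `WeakTate` implies that the order of the pole is the rank if there is a continuation. -/
theorem result (K : Type) [Field K] [NumberField K] (n d m N : ℕ)
    (X : Set (MvPolynomial (Fin n) (𝓞 K))) (V : Type) [AddCommGroup V] [Module ℚ V]
    [FiniteDimensional ℚ V] (ρ : Representation ℚ Gal(AlgebraicClosure K/K) V) (hm : m ≤ d)
    (hV : IsPart X d m N ρ) :
    DisjointLaw X d m N ρ ∧ SequenceLaw X d m N ρ ∧ FamilyLaw X d m N ρ ∧ ComplexLaw X d m N ρ ∧
    ∀ F : Extension K, WeakTate X d m N ρ F → PoleOrder X d m N ρ F :=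
  ⟨disjointLaw hm hV, sequenceLaw hm hV, familyLaw hm hV, complexLaw hm hV,
    fun _ h => pole_of_weak h⟩

end Pool.Agent.Results.MP_1f4fc7_nt.DisjointExtensions
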