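import Pool.Agent.Q70.BeG
import Pool.Agent.TH958.BV.Defs

/-!
# A Legendre-Bessel criterion for the pole of `L_2(s, X)` at `s = 2`

`X` is a smooth projective variety over a number field `K`.  Tate's conjecture says that
`(s - 2)^r L_2(s, X)` has an extension, holomorphic and without zero, to a neighbourhood of `s = 2`,
with `r = rank NS(X / K)`.  We show that this is the case if and only if certain absolutely
convergent sums over the powers of Frobenius, with the spherical Bessel functions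
`j_n(k η log q_v)` as weights, are equal to `r B_n` up to an error that decays exponentially in `n`,
where `B_n > 0` are explicit numbers of the size `n^{-3/2}`; the rate of the decay is the radius of
the disc.  All this is done for `H^i` and all points of the edge `Re s = i/2 + 1`.  The definitions
of `cone`, `IsFrobenius` and `edgePoint` are those of `Pool/Agent/TH958/BV/Defs.lean`.
-/

set_option autoImplicit false

namespace Pool.Agent.Results.MP_1f4fc7_nt.LegendreBesselCriterion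

open NumberField IsDedekindDomain Filter Topology Pool.Agent.TH958.BV

variable {K : Type} [Field K] [NumberField K]

/-- `α v` is a list of `N` numbers for every prime `v` of `K`: at almost all primes the eigenvalues
of the geometric Frobenius on `H^i(X)`, at the other primes numbers of absolute value at most
`q_v^{i/2}` (the eigenvalues on the invariants of inertia, completed by zeros). -/
def IsEigenvalueSystem {n : ℕ} (X : Set (MvPolynomial (Fin n) (𝓞 K))) (d i N : ℕ)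
    (α : HeightOneSpectrum (𝓞 K) → Fin N → ℂ) : Prop :=
  (∀ᶠ v in cofinite, IsFrobenius X d i v (α v)) ∧
  ∀ v j, ‖α v j‖ ≤ (Ideal.absNorm v.asIdeal : ℝ) ^ ((i : ℝ) / 2)

/-- The Euler factor `∏_j (1 - α_{v,j} q_v^{-s})⁻¹`. -/
noncomputable def eulerFactor {N : ℕ} (α : HeightOneSpectrum (𝓞 K) → Fin N → ℂ)
    (v : HeightOneSpectrum (𝓞 K)) (s : ℂ) : ℂ :=
  (∏ j, (1 - α v j * (Ideal.absNorm v.asIdeal : ℂ) ^ (-s)))⁻¹

/-- The `L`-function, the Euler product over all primes of `K`; for `i = 2` it is `L_2(s, X)`. -/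
noncomputable def LFunction {N : ℕ} (α : HeightOneSpectrum (𝓞 K) → Fin N → ℂ) (s : ℂ) : ℂ :=
  ∏' v : HeightOneSpectrum (𝓞 K), eulerFactor α v s

/-- The spherical Bessel function `j_n`, by Poisson's integral. -/
noncomputable def sphericalBessel (n : ℕ) (x : ℝ) : ℝ :=
  x ^ n / (2 ^ (n + 1) * n.factorial) * ∫ u in (-1 : ℝ)..1, (1 - u ^ 2) ^ n * Real.cos (x * u)

/-- The term `tr(Frob_v^k) q_v^{-k s₀} k⁻¹ j_n(k η log q_v)`, `k = x.2 + 1`, `v = x.1`,
`s₀ = i/2 + 1 + i t₀`. -/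
noncomputable def frobeniusTerm (i : ℕ) {N : ℕ} (α : HeightOneSpectrum (𝓞 K) → Fin N → ℂ)
    (t₀ η : ℝ) (n : ℕ) (x : HeightOneSpectrum (𝓞 K) × ℕ) : ℂ :=
  (∑ j, α x.1 j ^ (x.2 + 1)) *
    (Ideal.absNorm x.1.asIdeal : ℂ) ^ (-((x.2 + 1 : ℂ) * edgePoint i t₀)) / (x.2 + 1) *
    (sphericalBessel n ((x.2 + 1) * η * Real.log (Ideal.absNorm x.1.asIdeal)) : ℂ)

/-- The Legendre-Bessel sum `S_n(η)`, the sum over all primes `v` and all `k ≥ 1`. -/
noncomputable def frobeniusSum (i : ℕ) {N : ℕ} (α : HeightOneSpectrum (𝓞 K) → Fin N → ℂ)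
    (t₀ η : ℝ) (n : ℕ) : ℂ :=
  ∑' x : HeightOneSpectrum (𝓞 K) × ℕ, frobeniusTerm i α t₀ η n x

/-- The number `B_n = (1 / (2n)) ∫_0^π sin^{n+1}`. -/
noncomputable def poleConstant (n : ℕ) : ℝ :=
  1 / (2 * n) * ∫ θ in (0 : ℝ)..Real.pi, Real.sin θ ^ (n + 1)

/-- `(s - s₀)^r L(s)` extends from the half-plane `Re s > i/2 + 1` to a function which is holomorphic
and has no zeros in the disc with centre `s₀ = i/2 + 1 + i t₀` and radius `R`. -/
def HasOrderInDisc (i : ℕ) {N : ℕ} (α : HeightOneSpectrum (𝓞 K) → Fin N → ℂ) (t₀ : ℝ) (r : ℤ)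
    (R : ℝ) : Prop :=
  ∃ F : ℂ → ℂ, DifferentiableOn ℂ F (Metric.ball (edgePoint i t₀) R) ∧
    (∀ s ∈ Metric.ball (edgePoint i t₀) R, F s ≠ 0) ∧
    ∀ s ∈ Metric.ball (edgePoint i t₀) R, (i : ℝ) / 2 + 1 < s.re →
      (s - edgePoint i t₀) ^ r * LFunction α s = F s

theorem isL {i : ℕ} {N : ℕ} {α : HeightOneSpectrum (𝓞 K) → Fin N → ℂ}
    (hα : Pool.Agent.Q255.SG.BdK (i : ℝ) α) :
    Pool.Agent.Q255.SG.IsL (i : ℝ) α (LFunction α) := by
  have h := Pool.Agent.Q255.SG.isL_tprod hα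
  exact h

theorem ext_iff {i : ℕ} {N : ℕ} {α : HeightOneSpectrum (𝓞 K) → Fin N → ℂ}
    (hα : Pool.Agent.Q255.SG.BdK (i : ℝ) α) (t₀ : ℝ) (r : ℤ) (R : ℝ) :
    HasOrderInDisc i α t₀ r R ↔
      Pool.Agent.Q70.BeA.Ext (deriv (Pool.Agent.Q255.SG.PG (i : ℝ) α)) t₀ r R := by
  have hc : ∀ z : ℂ, z + (((i : ℝ) / 2 + 1 : ℝ) : ℂ) - edgePoint i t₀ = z - t₀ * Complex.I := by
    intro z
    unfold edgePoint
    push_cast
    ring
  have hL : ∀ z : ℂ, 0 < z.re → LFunction α (z + (((i : ℝ) / 2 + 1 : ℝ) : ℂ)) =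
      Complex.exp (deriv (Pool.Agent.Q255.SG.PG (i : ℝ) α) z) := by
    intro z hz
    rw [isL hα _ (by rw [Complex.add_re, Complex.ofReal_re]; linarith), add_sub_cancel_right]
  have hm : ∀ z : ℂ, z + (((i : ℝ) / 2 + 1 : ℝ) : ℂ) ∈ Metric.ball (edgePoint i t₀) R ↔
      z ∈ Metric.ball ((t₀ : ℂ) * Complex.I) R := by
    intro z
    rw [Metric.mem_ball, Metric.mem_ball, dist_eq_norm, dist_eq_norm, hc]
  constructor
  · rintro ⟨F, h1, h2, h3⟩
    refine ⟨fun z => F (z + (((i : ℝ) / 2 + 1 : ℝ) : ℂ)), ?_, fun z hz => h2 _ ((hm z).2 hz),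
      fun z hz hre => ?_⟩
    · refine h1.comp (by fun_prop) fun z hz => (hm z).2 hz
    · rw [← hL z hre]
      beta_reduce
      rw [← h3 _ ((hm z).2 hz) (by rw [Complex.add_re, Complex.ofReal_re]; linarith), hc]
  · rintro ⟨F, h1, h2, h3⟩
    have hs : ∀ s : ℂ, s - (((i : ℝ) / 2 + 1 : ℝ) : ℂ) + (((i : ℝ) / 2 + 1 : ℝ) : ℂ) = s := fun s =>
      sub_add_cancel _ _
    have hm' : ∀ s : ℂ, s ∈ Metric.ball (edgePoint i t₀) R →
        s - (((i : ℝ) / 2 + 1 : ℝ) : ℂ) ∈ Metric.ball ((t₀ : ℂ) * Complex.I) R := by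
      intro s hs'
      rw [← hm, hs]
      exact hs'
    refine ⟨fun s => F (s - (((i : ℝ) / 2 + 1 : ℝ) : ℂ)), ?_, fun s hs => h2 _ (hm' s hs),
      fun s hs' hre => ?_⟩
    · exact h1.comp (by fun_prop) fun s hs => hm' s hs
    · have hre' : 0 < (s - (((i : ℝ) / 2 + 1 : ℝ) : ℂ)).re := by
        rw [Complex.sub_re, Complex.ofReal_re]
        linarith
      have h4 := h3 _ (hm' s hs') hre'
      rw [← hL _ hre', hs, ← hc, hs] at h4
      exact h4

theorem norm_J {i : ℕ} {N : ℕ} {α : HeightOneSpectrum (𝓞 K) → Fin N → ℂ}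
    (hα : Pool.Agent.Q255.SG.BdK (i : ℝ) α) (t₀ : ℝ) {η : ℝ} (hη : 0 < η) (r : ℤ) {n : ℕ}
    (hn : 1 ≤ n) :
    ‖Pool.Agent.Q70.BeA.J (fun u : ℝ => Pool.Agent.Q70.BeA.DD (Pool.Agent.Q255.SG.PG (i : ℝ) α)
      t₀ η r u) (Pool.Agent.Q70.BeA.Lg n)‖ =
      2 * ‖frobeniusSum i α t₀ η n - r * (poleConstant n : ℂ)‖ := by
  rw [Pool.Agent.Q70.BeF.J_DD hα t₀ hη r hn, norm_mul, norm_mul, norm_pow, norm_neg,
    Complex.norm_I, one_pow, mul_one, Complex.norm_ofNat]
  rfl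

/-- **The Legendre-Bessel criterion.**  Let `X` be a projective variety over a number field `K`,
`t₀` a real number, `s₀ = i/2 + 1 + i t₀`, and let `S_n(η)` be the Legendre-Bessel sums of the
Frobenius eigenvalues on `H^i(X)`.

* The sums converge absolutely, for all `η > 0` and all `n`.
* If for one `η > 0`, an integer `r` and some `y > 1 + √2` and `C`,
`|S_n(η) - r B_n| ≤ C y^{-n}` for all `n ≥ 1`, then `(s - s₀)^r L(H^i(X), s)` is holomorphic and
without zeros in the disc with centre `s₀` and radius `η (y - 1/y) / 2`.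
* For an integer `r` and `R > 0` there are equivalent: `(s - s₀)^r L(H^i(X), s)` is holomorphic and
without zeros in the disc with centre `s₀` and radius `R`; for all `R' < R` there are `η₀ > 0` and `C`
with `|S_n(η) - r B_n| ≤ C (η / (2 R'))^n` for all `η < η₀` and `n ≥ 1`; for all `R' < R` there are
arbitrarily small `η > 0` with `|S_n(η) - r B_n| = O((η / (2 R'))^n)`.
* If these hold for some `r` and `R`, then `r = lim S_n(η) / B_n` for `n → ∞`, for all sufficiently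
small `η > 0`.

For `i = 2`, `t₀ = 0` and `r = rank NS(X / K)` the conjecture of Tate is that the conditions hold for
some `R > 0`. -/
theorem result (K : Type) [Field K] [NumberField K] (m : ℕ)
    (X : Set (MvPolynomial (Fin m) (𝓞 K))) (d i N : ℕ)
    (α : HeightOneSpectrum (𝓞 K) → Fin N → ℂ) (hα : IsEigenvalueSystem X d i N α) (t₀ : ℝ) :
    (∀ η : ℝ, 0 < η → ∀ n : ℕ, Summable fun x => ‖frobeniusTerm i α t₀ η n x‖) ∧
    (∀ (r : ℤ) (η C y : ℝ), 0 < η → 1 + Real.sqrt 2 < y →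
      (∀ n : ℕ, 1 ≤ n → ‖frobeniusSum i α t₀ η n - r * (poleConstant n : ℂ)‖ ≤ C * (1 / y) ^ n) →
      HasOrderInDisc i α t₀ r (η * ((y - 1 / y) / 2))) ∧
    (∀ (r : ℤ) (R : ℝ), 0 < R → List.TFAE [
      HasOrderInDisc i α t₀ r R,
      ∀ R' : ℝ, 0 < R' → R' < R → ∃ η₀ C : ℝ, 0 < η₀ ∧ ∀ η : ℝ, 0 < η → η < η₀ → ∀ n : ℕ, 1 ≤ n →
        ‖frobeniusSum i α t₀ η n - r * (poleConstant n : ℂ)‖ ≤ C * (η / (2 * R')) ^ n,
      ∀ R' : ℝ, 0 < R' → R' < R → ∀ η₀ : ℝ, 0 < η₀ → ∃ η C : ℝ, 0 < η ∧ η < η₀ ∧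
        ∀ n : ℕ, 1 ≤ n →
        ‖frobeniusSum i α t₀ η n - r * (poleConstant n : ℂ)‖ ≤ C * (η / (2 * R')) ^ n]) ∧
    (∀ (r : ℤ) (R : ℝ), 0 < R → HasOrderInDisc i α t₀ r R → ∃ η₀ : ℝ, 0 < η₀ ∧
      ∀ η : ℝ, 0 < η → η < η₀ →
        Tendsto (fun n : ℕ => frobeniusSum i α t₀ η n / (poleConstant n : ℂ)) atTop
          (𝓝 (r : ℂ))) := by
  have hb : Pool.Agent.Q255.SG.BdK (i : ℝ) α := fun v j => hα.2 v j
  have hP := Pool.Agent.Q255.SG.PG_continuousOn hb
  have hΛ : ∀ z : ℂ, 0 < z.re → HasDerivAt (Pool.Agent.Q255.SG.PG (i : ℝ) α)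
      (deriv (Pool.Agent.Q255.SG.PG (i : ℝ) α) z) z := fun z hz =>
    Pool.Agent.Q255.SG.PG_deriv hb hz
  -- one scale
  have one : ∀ (r : ℤ) (η C y : ℝ), 0 < η → 1 + Real.sqrt 2 < y →
      (∀ n : ℕ, 1 ≤ n → ‖frobeniusSum i α t₀ η n - r * (poleConstant n : ℂ)‖ ≤ C * (1 / y) ^ n) →
      HasOrderInDisc i α t₀ r (η * ((y - 1 / y) / 2)) := by
    intro r η C y hη hy h
    rw [ext_iff hb]
    refine Pool.Agent.Q70.BeA.ext_of_bound (C := 2 * C) hP hΛ hη hy fun n hn => ?_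
    rw [norm_J hb t₀ hη r hn]
    have := h n hn
    rw [one_div] at this
    linarith
  -- all small scales
  have all : ∀ (r : ℤ) (R R' : ℝ), HasOrderInDisc i α t₀ r R → 0 < R' → R' < R →
      ∃ η₀ C : ℝ, 0 < η₀ ∧ ∀ η : ℝ, 0 < η → η < η₀ → ∀ n : ℕ, 1 ≤ n →
        ‖frobeniusSum i α t₀ η n - r * (poleConstant n : ℂ)‖ ≤ C * (η / (2 * R')) ^ n := by
    intro r R R' h h1 h2
    rw [ext_iff hb] at h
    obtain ⟨η₀, C, hη₀, h3⟩ := Pool.Agent.Q70.BeA.bound_of_ext hP hΛ h h1 h2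
    refine ⟨η₀, C / 2, hη₀, fun η hη hη1 n hn => ?_⟩
    have h4 := h3 η hη hη1 n
    rw [norm_J hb t₀ hη r hn] at h4
    linarith
  refine ⟨fun η hη n => (Pool.Agent.Q70.BeF.summable_term hb t₀ hη n).norm, one,
    fun r R hR => ?_, fun r R hR h => ?_⟩
  · tfae_have 1 → 2 := fun h R' h1 h2 => all r R R' h h1 h2
    tfae_have 2 → 3 := by
      intro h R' h1 h2 η₀ h0
      obtain ⟨η₁, C, h3, h4⟩ := h R' h1 h2
      have h5 : 0 < min η₀ η₁ := lt_min h0 h3
      refine ⟨min η₀ η₁ / 2, C, by positivity, ?_, h4 _ (by positivity) ?_⟩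
      · have := min_le_left η₀ η₁
        linarith
      · have := min_le_right η₀ η₁
        linarith
    tfae_have 3 → 1 := by
      intro h
      rw [ext_iff hb]
      refine Pool.Agent.Q70.BeG.ext_glue fun R' h1 h2 => ?_
      set R'' : ℝ := (R' + R) / 2 with hR''
      have a1 : R' < R'' := by rw [hR'']; linarith
      have a2 : R'' < R := by rw [hR'']; linarith
      have a0 : 0 < R'' := by linarith
      have hsq : (0 : ℝ) < 1 + Real.sqrt 2 := by positivity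
      obtain ⟨η, C, b1, b2, b3⟩ := h R'' a0 a2
        (min (2 * R'' / (1 + Real.sqrt 2)) (R'' - R')) (lt_min (by positivity) (by linarith))
      have b4 : η < 2 * R'' / (1 + Real.sqrt 2) := lt_of_lt_of_le b2 (min_le_left _ _)
      have b5 : η < R'' - R' := lt_of_lt_of_le b2 (min_le_right _ _)
      have hy : 1 + Real.sqrt 2 < 2 * R'' / η := by
        rw [lt_div_iff₀ b1]
        rw [lt_div_iff₀ hsq] at b4
        linarith
      have h6 := one r η C (2 * R'' / η) b1 hy fun n hn => by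
        have := b3 n hn
        rwa [one_div, inv_div]
      rw [ext_iff hb] at h6
      refine Pool.Agent.Q70.BeG.ext_mono h6 ?_
      have e : η * ((2 * R'' / η - 1 / (2 * R'' / η)) / 2) = R'' - η * (η / (4 * R'')) := by
        field_simp
        ring
      rw [e]
      have h7 : η / (4 * R'') ≤ 1 := by
        rw [div_le_one (by positivity)]
        linarith
      nlinarith
    tfae_finish
  · obtain ⟨η₀, C, h1, h2⟩ := all r R (R / 2) h (by positivity) (by linarith)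
    refine ⟨min η₀ R, lt_min h1 hR, fun η hη hη1 => ?_⟩
    have h3 : η < R := lt_of_lt_of_le hη1 (min_le_right _ _)
    refine Pool.Agent.Q70.BeG.tendsto_order (C := C) (y := R / η) ?_ fun n hn => ?_
    · rw [lt_div_iff₀ hη]
      linarith
    · have h4 := h2 η hη (lt_of_lt_of_le hη1 (min_le_left _ _)) n hn
      rw [inv_div]
      rw [mul_div_cancel₀ R (by norm_num : (2 : ℝ) ≠ 0)] at h4
      exact h4

end Pool.Agent.Results.MP_1f4fc7_nt.LegendreBesselCriterion
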