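import Pool.Agent.Q255.SG.PoleEq
import Pool.Agent.Q255.SG.MerEq
import Pool.Agent.TH958.BV.Main

/-!
# The order of the pole of `L_2(s, X)` at `s = 2` on the edge line

`X` is a smooth projective variety over a number field `K`.  The function `L_2(s, X)` has boundary
values `l(t)` on the edge `Re s = 2` of absolute convergence, for all `t` outside a set of
dimension `0`.  We show that the modulus of `l` near `t = 0` decides the order of the pole at
`s = 2`, in the sense of the problem and in a weak sense in which no continuation is assumed.  All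
this is done for `H^i` and all points of the edge `Re s = i/2 + 1`.  The definitions of
`cone`, `IsFrobenius`, `edgePoint` and `angle` are those of `Pool/Agent/TH958/BV/Defs.lean`.
-/

set_option autoImplicit false

namespace Pool.Agent.Results.MP_1f4fc7_nt.PoleOrderOnEdge

open NumberField IsDedekindDomain Filter Topology MeasureTheory Polynomial
  Pool.Agent.TH958.BV

variable {K : Type} [Field K] [NumberField K]

/-- `α v` is a list of `N` numbers for every prime `v` of `K`: at almost all primes the eigenvalues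
of the geometric Frobenius on `H^i(X)`, at the other primes numbers of absolute value at most
`q_v^{i/2}` such that `∏ (1 - α_j z)` has algebraic coefficients (the eigenvalues on the invariants
of inertia, completed by zeros). -/
def IsEigenvalueSystem {n : ℕ} (X : Set (MvPolynomial (Fin n) (𝓞 K))) (d i N : ℕ)
    (α : HeightOneSpectrum (𝓞 K) → Fin N → ℂ) : Prop :=
  (∀ᶠ v in cofinite, IsFrobenius X d i v (α v)) ∧
  ∀ v, (∀ j, ‖α v j‖ ≤ (Ideal.absNorm v.asIdeal : ℝ) ^ ((i : ℝ) / 2)) ∧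
    ∀ k, IsAlgebraic ℚ ((∏ j, (1 - C (α v j) * Polynomial.X) : ℂ[X]).coeff k)

/-- The Euler factor `∏_j (1 - α_{v,j} q_v^{-s})⁻¹`. -/
noncomputable def eulerFactor {N : ℕ} (α : HeightOneSpectrum (𝓞 K) → Fin N → ℂ)
    (v : HeightOneSpectrum (𝓞 K)) (s : ℂ) : ℂ :=
  (∏ j, (1 - α v j * (Ideal.absNorm v.asIdeal : ℂ) ^ (-s)))⁻¹

/-- The `L`-function, the Euler product over all primes of `K`; for `i = 2` it is `L_2(s, X)`. -/
noncomputable def LFunction {N : ℕ} (α : HeightOneSpectrum (𝓞 K) → Fin N → ℂ) (s : ℂ) : ℂ :=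
  ∏' v : HeightOneSpectrum (𝓞 K), eulerFactor α v s

/-- `l` is the boundary function of the `L`-function outside the exceptional set `T`: its values
there are not zero, and they are the limits of the partial Euler products and of the `L`-function in
every angle. -/
def IsBoundaryFunction (i : ℕ) (T : Set ℝ) {N : ℕ} (α : HeightOneSpectrum (𝓞 K) → Fin N → ℂ)
    (l : ℝ → ℂ) : Prop :=
  ∀ τ : ℝ, τ ∉ T → l τ ≠ 0 ∧
    Tendsto (fun x : ℕ => ∏ᶠ v ∈ {v : HeightOneSpectrum (𝓞 K) | Ideal.absNorm v.asIdeal < x},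
      eulerFactor α v (edgePoint i τ)) atTop (𝓝 (l τ)) ∧
    ∀ C : ℝ, Tendsto (LFunction α) (𝓝[angle i τ C] (edgePoint i τ)) (𝓝 (l τ))

theorem exists_bf {n : ℕ} (X : Set (MvPolynomial (Fin n) (𝓞 K))) (d i N : ℕ) (hi : i ≤ 2 * d)
    (α : HeightOneSpectrum (𝓞 K) → Fin N → ℂ) (hα : IsEigenvalueSystem X d i N α) :
    ∃ l : ℝ → ℂ, IsBoundaryFunction i TT α l := by
  classical
  set B : HeightOneSpectrum (𝓞 K) → ℂ[X] := fun v => ∏ j, (1 - C (α v j) * Polynomial.X) with hB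
  have heval : ∀ v z, (B v).eval z = ∏ j, (1 - α v j * z) := by
    intro v z
    simp [hB, eval_prod]
  have hsys : IsEulerSystem X d i N B := by
    refine ⟨?_, fun v => ⟨?_, (hα.2 v).2⟩⟩
    · filter_upwards [hα.1] with v hv
      exact ⟨α v, hv, heval v⟩
    · intro h0
      have h1 := heval v 0
      rw [h0] at h1
      simp at h1
  have hfac : ∀ v s, localFactor B v s = eulerFactor α v s := by
    intro v s
    unfold localFactor eulerFactor
    rw [heval]
  have h : ∀ τ : ℝ, ∃ l : ℂ, τ ∉ TT → l ≠ 0 ∧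
      Tendsto (fun x : ℕ => ∏ᶠ v ∈ {v : HeightOneSpectrum (𝓞 K) | Ideal.absNorm v.asIdeal < x},
        eulerFactor α v (edgePoint i τ)) atTop (𝓝 l) ∧
      ∀ C : ℝ, Tendsto (LFunction α) (𝓝[angle i τ C] (edgePoint i τ)) (𝓝 l) := by
    intro τ
    by_cases hτ : τ ∈ TT
    · exact ⟨0, fun h => absurd hτ h⟩
    · obtain ⟨l, h1, h2, h3⟩ := universal X d i N hi B hsys τ hτ
      refine ⟨l, fun _ => ⟨h1, h2.congr fun x => ?_, fun C => (h3 C).congr fun s => ?_⟩⟩
      · have hf : {v : HeightOneSpectrum (𝓞 K) | Ideal.absNorm v.asIdeal < x}.Finite :=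
          Pool.Agent.W350.EdgeNF.hfin x
        rw [finprod_mem_eq_finite_toFinset_prod _ hf]
        exact Finset.prod_congr rfl fun v _ => hfac v _
      · exact tprod_congr fun v => hfac v s
  choose l hl using h
  exact ⟨l, fun τ hτ => hl τ hτ⟩

theorem null_of_dimH {T : Set ℝ} (hT : dimH T = 0) : volume T = 0 := by
  have h1 : (Measure.hausdorffMeasure (1 : ℝ) : Measure ℝ) T = 0 := by
    have := hausdorffMeasure_of_dimH_lt (X := ℝ) (s := T) (d := 1) (by rw [hT]; norm_num)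
    simpa using this
  rw [← MeasureTheory.hausdorffMeasure_real]
  exact h1

theorem edge_eq (i : ℕ) (t : ℝ) : Pool.Agent.Q255.SG.epw i t = edgePoint i t := rfl

theorem isLim {i : ℕ} {T : Set ℝ} {N : ℕ} {α : HeightOneSpectrum (𝓞 K) → Fin N → ℂ}
    (hα : Pool.Agent.Q255.SG.BdK (i : ℝ) α) {l : ℝ → ℂ} (h : IsBoundaryFunction i T α l) :
    Pool.Agent.Q255.SG.Lim (Pool.Agent.Q255.SG.PP (Pool.Agent.Q255.SG.sysLD (i : ℝ) α hα)) T l := by
  intro τ hτ
  refine ⟨(h τ hτ).1, (h τ hτ).2.1.congr fun x => ?_⟩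
  have hf : {v : HeightOneSpectrum (𝓞 K) | Ideal.absNorm v.asIdeal < x}.Finite :=
    Pool.Agent.W350.EdgeNF.hfin x
  rw [finprod_mem_eq_finite_toFinset_prod _ hf, ← Pool.Agent.Q255.SG.sys_PP]
  rfl

theorem horLim {i : ℕ} {T : Set ℝ} {N : ℕ} {α : HeightOneSpectrum (𝓞 K) → Fin N → ℂ}
    {l : ℝ → ℂ} (h : IsBoundaryFunction i T α l) :
    Pool.Agent.Q255.SG.HorLim i (LFunction α) T l := by
  intro t ht
  refine ((h t ht).2.2 1).comp ?_
  rw [tendsto_nhdsWithin_iff]
  refine ⟨?_, ?_⟩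
  · have h2 : Continuous fun ε : ℝ => Pool.Agent.Q255.SG.epw i t + (ε : ℂ) := by fun_prop
    have h3 := (h2.tendsto 0).mono_left (nhdsWithin_le_nhds (s := Set.Ioi 0))
    simpa [edge_eq] using h3
  · filter_upwards [self_mem_nhdsWithin] with ε hε
    have hε' : (0 : ℝ) < ε := hε
    have hre : (edgePoint i t + (ε : ℂ)).re = (i : ℝ) / 2 + 1 + ε := by
      unfold edgePoint
      simp
    rw [edge_eq]
    refine ⟨?_, ?_⟩
    · rw [hre]
      linarith
    · rw [hre, add_sub_cancel_left, Complex.norm_real, Real.norm_of_nonneg hε'.le]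
      linarith

theorem isL {i : ℕ} {N : ℕ} {α : HeightOneSpectrum (𝓞 K) → Fin N → ℂ}
    (hα : Pool.Agent.Q255.SG.BdK (i : ℝ) α) :
    Pool.Agent.Q255.SG.IsL (i : ℝ) α (LFunction α) := by
  have h := Pool.Agent.Q255.SG.isL_tprod hα
  exact h

theorem log_L {i : ℕ} {N : ℕ} {α : HeightOneSpectrum (𝓞 K) → Fin N → ℂ}
    (hα : Pool.Agent.Q255.SG.BdK (i : ℝ) α) (t h : ℝ) (hh : 0 < h) :
    Real.log ‖LFunction α (edgePoint i t + h)‖ =
      (deriv (Pool.Agent.Q255.SG.PG (i : ℝ) α) ((h : ℂ) + (t : ℂ) * Complex.I)).re := by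
  have hre : (i : ℝ) / 2 + 1 < (edgePoint i t + (h : ℂ)).re := by
    unfold edgePoint
    simp only [Complex.add_re, Complex.ofReal_re, Complex.re_ofReal_mul, Complex.I_re, mul_zero,
      add_zero]
    linarith
  rw [isL hα _ hre, Complex.norm_exp, Real.log_exp]
  congr 2
  unfold edgePoint
  ring

/-- **The order of the pole on the edge line.**  There is a set `T` of real numbers of Hausdorff
dimension `0` such that, for `H^i` of every smooth projective variety over every number field, the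
`L`-function has a boundary function `l` on the edge `Re s = i/2 + 1` outside `T`, and:

* for every natural number `M` and every `q < 1/M` there is a constant `C` such that, if the
dimension `N` of `H^i` satisfies `1 ≤ N` and `N [K : ℚ] ≤ M`, then for all `t₀` and `0 < h ≤ 1` the
integral of `exp(q |log |l(t)| - log |L(i/2 + 1 + it₀ + h)||)` over `|t - t₀| ≤ h` is at most `C h`;
* for every real `ρ`, `log |L(i/2 + 1 + it₀ + h)| = ρ log(1/h) + O(1)` for `0 < h ≤ 1` if and only if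
there are `A` and `η > 0` such that for every `0 < h ≤ 1` the measure of the set of `t` with
`|t - t₀| ≤ h` and `|log |l(t)| - ρ log(1/h)| ≤ A` is at least `η h`; and then the measure of the
set of `t` with `|t - t₀| ≤ h` and `|log |l(t)| - ρ log(1/h)| ≥ A' + λ` is at most
`C' h exp(-q λ)`, for all `λ`;
* for every integer `r`, `(s - s₀)^r L(s)` extends to a function holomorphic and not zero at
`s₀ = i/2 + 1 + it₀` if and only if `|t - t₀|^r |l(t)|` is equal to `e^{ψ(t)}` for almost all `t`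
near `t₀`, with a function `ψ` real analytic at `t₀`.

For `i = 2` and `t₀ = 0` these are the order of the pole of `L_2(s, X)` at `s = 2`, in a weak sense
and in the sense of the problem. -/
theorem result : ∃ T : Set ℝ, dimH T = 0 ∧
    (∀ (K : Type) [Field K] [NumberField K] (n : ℕ) (X : Set (MvPolynomial (Fin n) (𝓞 K)))
      (d i N : ℕ) (_ : i ≤ 2 * d) (α : HeightOneSpectrum (𝓞 K) → Fin N → ℂ)
      (_ : IsEigenvalueSystem X d i N α), ∃ l : ℝ → ℂ, IsBoundaryFunction i T α l) ∧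
    (∀ (M : ℕ) (q : ℝ), 0 < q → M * q < 1 → ∃ C : ℝ, 0 < C ∧
      ∀ (K : Type) [Field K] [NumberField K] (n : ℕ) (X : Set (MvPolynomial (Fin n) (𝓞 K)))
        (d i N : ℕ) (_ : i ≤ 2 * d) (α : HeightOneSpectrum (𝓞 K) → Fin N → ℂ)
        (_ : IsEigenvalueSystem X d i N α) (l : ℝ → ℂ) (_ : IsBoundaryFunction i T α l),
      1 ≤ N → N * Module.finrank ℚ K ≤ M → ∀ t₀ h : ℝ, 0 < h → h ≤ 1 →
        ∫⁻ t in Set.Icc (t₀ - h) (t₀ + h), ENNReal.ofReal (Real.exp (q *
          |Real.log ‖l t‖ - Real.log ‖LFunction α (edgePoint i t₀ + h)‖|)) ≤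
          ENNReal.ofReal (C * h)) ∧
    ∀ (K : Type) [Field K] [NumberField K] (n : ℕ) (X : Set (MvPolynomial (Fin n) (𝓞 K)))
      (d i N : ℕ) (_ : i ≤ 2 * d) (α : HeightOneSpectrum (𝓞 K) → Fin N → ℂ)
      (_ : IsEigenvalueSystem X d i N α) (l : ℝ → ℂ) (_ : IsBoundaryFunction i T α l) (t₀ : ℝ),
      (∀ ρ : ℝ, (∃ A : ℝ, ∀ h : ℝ, 0 < h → h ≤ 1 →
          |Real.log ‖LFunction α (edgePoint i t₀ + h)‖ - ρ * Real.log (1 / h)| ≤ A) ↔
        ∃ A η : ℝ, 0 < η ∧ ∀ h : ℝ, 0 < h → h ≤ 1 → ENNReal.ofReal (η * h) ≤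
          volume {t : ℝ | |t - t₀| ≤ h ∧ |Real.log ‖l t‖ - ρ * Real.log (1 / h)| ≤ A}) ∧
      (∀ q : ℝ, 0 < q → N * Module.finrank ℚ K * q < 1 → ∀ ρ A : ℝ, (∀ h : ℝ, 0 < h → h ≤ 1 →
          |Real.log ‖LFunction α (edgePoint i t₀ + h)‖ - ρ * Real.log (1 / h)| ≤ A) →
        ∃ C : ℝ, 0 < C ∧ ∀ h : ℝ, 0 < h → h ≤ 1 → ∀ lam : ℝ,
          volume {t : ℝ | |t - t₀| ≤ h ∧ A + lam ≤ |Real.log ‖l t‖ - ρ * Real.log (1 / h)|} ≤
            ENNReal.ofReal (C * h * Real.exp (-(q * lam)))) ∧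
      ∀ r : ℤ,
        (∃ F : ℂ → ℂ, AnalyticAt ℂ F (edgePoint i t₀) ∧ F (edgePoint i t₀) ≠ 0 ∧
          ∃ δ : ℝ, 0 < δ ∧ ∀ s : ℂ, (i : ℝ) / 2 + 1 < s.re → ‖s - edgePoint i t₀‖ < δ →
            (s - edgePoint i t₀) ^ r * LFunction α s = F s) ↔
        ∃ ψ : ℝ → ℝ, AnalyticAt ℝ ψ t₀ ∧ ∃ δ : ℝ, 0 < δ ∧
          ∀ᵐ t : ℝ, |t - t₀| < δ → |t - t₀| ^ r * ‖l t‖ = Real.exp (ψ t) := by
  have hT : volume TT = 0 := null_of_dimH dimH_TT
  have hbd : ∀ {K : Type} [Field K] [NumberField K] {n : ℕ}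
      {X : Set (MvPolynomial (Fin n) (𝓞 K))} {d i N : ℕ}
      {α : HeightOneSpectrum (𝓞 K) → Fin N → ℂ}, IsEigenvalueSystem X d i N α →
      Pool.Agent.Q255.SG.BdK (i : ℝ) α := fun hα v j => (hα.2 v).1 j
  refine ⟨TT, dimH_TT, fun K _ _ n X d i N hi α hα => exists_bf X d i N hi α hα,
    fun M q hq hMq => ?_, fun K _ _ n X d i N hi α hα l hl t₀ => ?_⟩
  · obtain ⟨C, hC, h⟩ := Pool.Agent.Q255.SG.sys_local M hq.le hMq
    refine ⟨C, hC, fun K _ _ n X d i N hi α hα l hl hN hNM t₀ δ hδ hδ1 => ?_⟩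
    rw [log_L (hbd hα) t₀ δ hδ]
    exact h K N hN hNM i α (hbd hα) TT hT l (isLim (hbd hα) hl) t₀ δ hδ hδ1
  · have hb := hbd hα
    have hlim := isLim hb hl
    have hae : AEMeasurable l volume :=
      Pool.Agent.Q255.SG.lim_aemeas (Pool.Agent.Q255.SG.PP_continuous _) hT hlim
    have hloc : ∀ q : ℝ, 0 < q → N * Module.finrank ℚ K * q < 1 → ∃ C : ℝ, 0 < C ∧
        ∀ δ : ℝ, 0 < δ → δ ≤ 1 → ∫⁻ t in Set.Icc (t₀ - δ) (t₀ + δ),
          ENNReal.ofReal (Real.exp (q *
            |Real.log ‖l t‖ - Real.log ‖LFunction α (edgePoint i t₀ + δ)‖|)) ≤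
          ENNReal.ofReal (C * δ) := by
      intro q hq hq1
      obtain ⟨C, hC, h⟩ := Pool.Agent.Q255.SG.sys_local1 (Module.finrank ℚ K) N hq.le hq1
      refine ⟨C, hC, fun δ hδ hδ1 => ?_⟩
      rw [log_L hb t₀ δ hδ]
      exact h K le_rfl i α hb TT hT l hlim t₀ δ hδ hδ1
    refine ⟨fun ρ => ?_, fun q hq hq1 ρ A hA => ?_, fun r => ⟨?_, ?_⟩⟩
    · have hM0 : (0 : ℝ) ≤ N * Module.finrank ℚ K := by positivity
      obtain ⟨C, hC, h⟩ := hloc (1 / (N * Module.finrank ℚ K + 1)) (by positivity) (by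
        rw [mul_one_div, div_lt_one (by positivity)]
        linarith)
      have hq0 : (0 : ℝ) < 1 / (N * Module.finrank ℚ K + 1) := by positivity
      constructor
      · intro hA
        exact Pool.Agent.Q255.SG.weak_two
          (x := fun δ => Real.log ‖LFunction α (edgePoint i t₀ + δ)‖) hq0 hC hae h hA
      · rintro ⟨A, η, hη, h1⟩
        obtain ⟨A', hA'⟩ := Pool.Agent.Q255.SG.weak_three
          (x := fun δ => Real.log ‖LFunction α (edgePoint i t₀ + δ)‖) (ρ := ρ) (A := A) hq0 hC hae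
          h hη
        exact ⟨A', fun δ hδ hδ1 => hA' δ hδ hδ1 (h1 δ hδ hδ1)⟩
    · obtain ⟨C, hC, h⟩ := hloc q hq hq1
      exact ⟨C, hC, Pool.Agent.Q255.SG.weak_one
        (x := fun δ => Real.log ‖LFunction α (edgePoint i t₀ + δ)‖) hq hC hae h hA⟩
    · rintro ⟨F, h1, h2, δ, hδ, h3⟩
      obtain ⟨ψ, hψ, δ', hδ', h4⟩ := Pool.Agent.Q255.SG.bwd (κ := ((-r : ℤ) : ℝ)) hT (horLim hl)
        (t0 := t₀) (F := F) h1 h2 hδ fun s hs hsd => by
          have hne : s - edgePoint i t₀ ≠ 0 := by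
            intro h0
            have : s = edgePoint i t₀ := sub_eq_zero.1 h0
            rw [this, ← edge_eq, Pool.Agent.Q255.SG.epw_re] at hs
            exact lt_irrefl _ hs
          rw [Pool.Agent.Q255.SG.cpow_int, edge_eq, ← h3 s hs hsd, zpow_neg,
            inv_mul_cancel_left₀ (zpow_ne_zero r hne)]
      refine ⟨ψ, hψ, δ', hδ', ?_⟩
      have hne : ∀ᵐ t : ℝ, t ≠ t₀ := by
        have : volume ({t₀} : Set ℝ) = 0 := measure_singleton t₀
        filter_upwards [Pool.Agent.Q255.SG.ae_not this] with t ht using ht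
      filter_upwards [h4, hne] with t a1 a2 a3
      have h0 : 0 < |t - t₀| := abs_pos.2 (sub_ne_zero.2 a2)
      rw [a1 a3, Real.rpow_intCast, zpow_neg, mul_inv_cancel_left₀ (zpow_pos h0 r).ne']
    · rintro ⟨ψ, hψ, δ, hδ, h1⟩
      have hne : ∀ᵐ t : ℝ, t ≠ t₀ := by
        have : volume ({t₀} : Set ℝ) = 0 := measure_singleton t₀
        filter_upwards [Pool.Agent.Q255.SG.ae_not this] with t ht using ht
      obtain ⟨F, h3, h4, δ', hδ', h5⟩ := Pool.Agent.Q255.SG.fwd hb hT hlim (isL hb)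
        (κ := ((-r : ℤ) : ℝ)) hψ hδ (by
          filter_upwards [h1, hne] with t a1 a2 a3
          have h0 : 0 < |t - t₀| := abs_pos.2 (sub_ne_zero.2 a2)
          rw [← a1 a3, Real.rpow_intCast, zpow_neg, inv_mul_cancel_left₀ (zpow_pos h0 r).ne'])
      refine ⟨F, h3, h4, δ', hδ', fun s hs hsd => ?_⟩
      have hne : s - edgePoint i t₀ ≠ 0 := by
        intro h0
        have : s = edgePoint i t₀ := sub_eq_zero.1 h0
        rw [this, ← edge_eq, Pool.Agent.Q255.SG.epw_re] at hs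
        exact lt_irrefl _ hs
      rw [h5 s hs hsd, Pool.Agent.Q255.SG.cpow_int, edge_eq, zpow_neg,
        mul_inv_cancel_left₀ (zpow_ne_zero r hne)]

end Pool.Agent.Results.MP_1f4fc7_nt.PoleOrderOnEdge
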