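import Pool.Agent.Q5.VL.Tate

/-!
# Tate's conjecture on the pole: from thin families of number fields to all

`X` is a smooth projective variety of dimension `d` over a number field `K`, `0 ≤ m ≤ d`, and `V` is the
space `A^m(X) ⊗ ℚ` of the classes of the algebraic cycles of codimension `m` defined over the algebraic
closure, with the action `ρ` of the absolute Galois group of `K`; for `m = 1` it is `NS(X) ⊗ ℚ`, and the
theorem holds for every finite dimensional representation `V`.  For every finite extension `F` of `K` the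
rank of the group of the classes defined over `F` is the dimension of the space of the invariants of the
absolute Galois group of `F`, and Tate's conjecture for `X_F` says that `L(H^{2m}(X_F), s)` has a pole of
this order at `s = m + 1`.  The Euler systems `IsEulerSystem` and the Euler product `LFun` are those of
`Pool.Agent.W353.EF.Defs`: the factors at the finitely many bad primes are arbitrary, without pole at
`m + 1`.
-/

set_option autoImplicit false

namespace Pool.Agent.Results.MP_1f4fc7_nt.WideFamilies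

open NumberField IsDedekindDomain Filter Topology Polynomial
open Pool.Agent.W353.EF (LFun IsEulerSystem)

/-- The dimension of the space of the vectors of `V` fixed by the absolute Galois group of `F`, that is,
by all automorphisms of the algebraic closure of `K` that are trivial on the image of `F`. -/
noncomputable def rank {K : Type} [Field K] [NumberField K] {V : Type} [AddCommGroup V] [Module ℚ V]
    (ρ : Representation ℚ Gal(AlgebraicClosure K/K) V) (F : Type) [Field F] [NumberField F]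
    [Algebra K F] : ℕ :=
  Module.finrank ℚ (Pool.Agent.Q5.VL.fixV ρ (IsAlgClosed.lift : F →ₐ[K] AlgebraicClosure K))

section
variable {K : Type} [Field K] [NumberField K] {n : ℕ} (X : Set (MvPolynomial (Fin n) (𝓞 K)))
  (d m N : ℕ) {V : Type} [AddCommGroup V] [Module ℚ V]
  (ρ : Representation ℚ Gal(AlgebraicClosure K/K) V) (F : Type) [Field F] [NumberField F]
  [Algebra K F]

/-- `L(H^{2m}(X_F), m + 1 + ε) = ε ^ (-r + o(1))` as `ε → 0+`, where `r` is the rank over `F`: Tate's
conjecture, as far as it makes sense without continuation. -/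
def WeakTate : Prop :=
  ∀ B : HeightOneSpectrum (𝓞 F) → ℂ[X], IsEulerSystem X d (2 * m) N B →
    Tendsto (fun ε : ℝ => Real.log ‖LFun B (m + 1 + ε)‖ / Real.log (1 / ε)) (𝓝[>] 0)
      (𝓝 (rank ρ F))

/-- `L(H^{2m}(X_F), s)^t` has a meromorphic continuation to a neighbourhood of `m + 1`, with a pole of
order `t r`, where `r` is the rank over `F`. -/
def PowerTate (t : ℕ) : Prop :=
  ∀ B : HeightOneSpectrum (𝓞 F) → ℂ[X], IsEulerSystem X d (2 * m) N B →
    ∃ Λ : ℂ → ℂ, MeromorphicAt Λ (m + 1) ∧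
      (∀ᶠ s in 𝓝 ((m : ℂ) + 1), (m : ℝ) + 1 < s.re → Λ s = LFun B s ^ t) ∧
      meromorphicOrderAt Λ (m + 1) = ((-(t * rank ρ F) : ℤ) : WithTop ℤ)

/-- Tate's conjecture for `X_F`: `L(H^{2m}(X_F), s)` has a meromorphic continuation to a neighbourhood of
`m + 1`, with a pole of order `r`, where `r` is the rank over `F`. -/
def Tate : Prop :=
  ∀ B : HeightOneSpectrum (𝓞 F) → ℂ[X], IsEulerSystem X d (2 * m) N B →
    ∃ Λ : ℂ → ℂ, MeromorphicAt Λ (m + 1) ∧
      (∀ᶠ s in 𝓝 ((m : ℂ) + 1), (m : ℝ) + 1 < s.re → Λ s = LFun B s) ∧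
      meromorphicOrderAt Λ (m + 1) = ((-rank ρ F : ℤ) : WithTop ℤ)

/-- `L(H^{2m}(X_F), s)` has a meromorphic continuation to a neighbourhood of `m + 1`. -/
def Continues : Prop :=
  ∀ B : HeightOneSpectrum (𝓞 F) → ℂ[X], IsEulerSystem X d (2 * m) N B →
    ∃ Λ : ℂ → ℂ, MeromorphicAt Λ (m + 1) ∧
      (∀ᶠ s in 𝓝 ((m : ℂ) + 1), (m : ℝ) + 1 < s.re → Λ s = LFun B s)

end

/-- A family of finite extensions of `K` inside the algebraic closure is wide if it is closed under
passing to larger finite extensions, and every automorphism of the algebraic closure over `K` fixes all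
elements of some member of the family. -/
def Wide (K : Type) [Field K] (𝓕 : Set (IntermediateField K (AlgebraicClosure K))) : Prop :=
  (∀ F ∈ 𝓕, FiniteDimensional K F) ∧
  (∀ F ∈ 𝓕, ∀ F' : IntermediateField K (AlgebraicClosure K), FiniteDimensional K F' → F ≤ F' →
    F' ∈ 𝓕) ∧
  ∀ σ : AlgebraicClosure K ≃ₐ[K] AlgebraicClosure K, ∃ F ∈ 𝓕, ∀ x ∈ F, σ x = x

/-- `F` is generated over `K` by finitely many `p`-th roots of positive integers all of whose prime
factors belong to `T`, and `p ^ k` divides the degree of `F/K`. -/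
def TestField (T : Set ℕ) (p k : ℕ) (K F : Type) [Field K] [Field F] [Algebra K F] : Prop :=
  (∃ S : Set F, S.Finite ∧
    (∀ x ∈ S, ∃ c : ℕ, c ≠ 0 ∧ (∀ l : ℕ, l.Prime → l ∣ c → l ∈ T) ∧ x ^ p = (c : F)) ∧
    IntermediateField.adjoin K S = ⊤) ∧
  p ^ k ∣ Module.finrank K F

/-- A set of positive integers closed under multiples, with greatest common divisor `1`; for example
the multiples of `10^100` together with the multiples of `3^100`, or all `n ≥ 10^100`. -/
def IsSparse (D : Set ℕ) : Prop :=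
  (∀ d ∈ D, ∀ n : ℕ, 0 < n → d * n ∈ D) ∧ ∀ g : ℕ, (∀ d ∈ D, g ∣ d) → g = 1

/-- The law for wide families. -/
def WideLaw : Prop :=
  ∀ (K : Type) [Field K] [NumberField K] (𝓕 : Set (IntermediateField K (AlgebraicClosure K))),
    Wide K 𝓕 → ∃ t : ℕ, 0 < t ∧
      ∀ (n : ℕ) (X : Set (MvPolynomial (Fin n) (𝓞 K))) (d m N : ℕ) (V : Type) [AddCommGroup V]
        [Module ℚ V] [FiniteDimensional ℚ V] (ρ : Representation ℚ Gal(AlgebraicClosure K/K) V),
        m ≤ d →
        ((∀ F ∈ 𝓕, ∀ [NumberField F], WeakTate X d m N ρ F) → WeakTate X d m N ρ K) ∧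
        ((∀ F ∈ 𝓕, ∀ [NumberField F], Tate X d m N ρ F) →
          PowerTate X d m N ρ K t ∧ (Continues X d m N K → Tate X d m N ρ K))

/-- The law for the test fields of `p`, `k` and `T`. -/
def TestLaw : Prop :=
  ∀ (p k : ℕ) (T : Set ℕ), p.Prime → (∀ l ∈ T, l.Prime) → T.Infinite →
    ∀ (K : Type) [Field K] [NumberField K] (n : ℕ) (X : Set (MvPolynomial (Fin n) (𝓞 K)))
      (d m N : ℕ) (V : Type) [AddCommGroup V] [Module ℚ V] [FiniteDimensional ℚ V]
      (ρ : Representation ℚ Gal(AlgebraicClosure K/K) V), m ≤ d →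
      ((∀ (F : Type) [Field F] [NumberField F] [Algebra K F], TestField T p k K F →
        WeakTate X d m N ρ F) → WeakTate X d m N ρ K) ∧
      ((∀ (F : Type) [Field F] [NumberField F] [Algebra K F], TestField T p k K F →
        Tate X d m N ρ F) →
        PowerTate X d m N ρ K (p ^ k) ∧ (Continues X d m N K → Tate X d m N ρ K))

/-- Counterexamples spread. -/
def SpreadLaw : Prop :=
  ∀ (K : Type) [Field K] [NumberField K] (n : ℕ) (X : Set (MvPolynomial (Fin n) (𝓞 K)))
    (d m N : ℕ) (V : Type) [AddCommGroup V] [Module ℚ V] [FiniteDimensional ℚ V]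
    (ρ : Representation ℚ Gal(AlgebraicClosure K/K) V), m ≤ d → ¬ Tate X d m N ρ K →
    ∃ p₀ : ℕ, ∀ (p k : ℕ) (T : Set ℕ), p.Prime → (p ≠ p₀ ∨ Continues X d m N K) →
      (∀ l ∈ T, l.Prime) → T.Infinite →
      ∃ (F : Type) (_ : Field F) (_ : NumberField F) (_ : Algebra K F), TestField T p k K F ∧
        ¬ Tate X d m N ρ F

/-- The law for the degrees. -/
def DegreeLaw : Prop :=
  ∀ (K : Type) [Field K] [NumberField K] (n : ℕ) (X : Set (MvPolynomial (Fin n) (𝓞 K)))
    (d m N : ℕ) (V : Type) [AddCommGroup V] [Module ℚ V] [FiniteDimensional ℚ V]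
    (ρ : Representation ℚ Gal(AlgebraicClosure K/K) V), m ≤ d →
    (∀ D : Set ℕ, IsSparse D →
      (∀ (F : Type) [Field F] [NumberField F] [Algebra K F], Module.finrank K F ∈ D →
        Tate X d m N ρ F) →
      ∀ (F : Type) [Field F] [NumberField F] [Algebra K F], Tate X d m N ρ F) ∧
    ∀ M : ℕ, 0 < M →
      ((∀ (F : Type) [Field F] [NumberField F] [Algebra K F], M ∣ Module.finrank K F →
        WeakTate X d m N ρ F) →
      ∀ (F : Type) [Field F] [NumberField F] [Algebra K F], WeakTate X d m N ρ F) ∧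
      ((∀ (F : Type) [Field F] [NumberField F] [Algebra K F], M ∣ Module.finrank K F →
        Tate X d m N ρ F) →
      ∀ (F : Type) [Field F] [NumberField F] [Algebra K F],
        PowerTate X d m N ρ F (M / M.gcd (Module.finrank K F)) ∧
        (Continues X d m N F → Tate X d m N ρ F))

section
variable {K : Type} [Field K] [NumberField K] {n : ℕ} {X : Set (MvPolynomial (Fin n) (𝓞 K))}
  {d m N : ℕ} {V : Type} [AddCommGroup V] [Module ℚ V]
  {ρ : Representation ℚ Gal(AlgebraicClosure K/K) V} {F : Type} [Field F] [NumberField F]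
  [Algebra K F]

theorem pt (m : ℕ) : ((2 * m : ℕ) : ℂ) / 2 + 1 = (m : ℂ) + 1 := by
  push_cast
  ring

theorem ptR (m : ℕ) : ((2 * m : ℕ) : ℝ) / 2 + 1 = (m : ℝ) + 1 := by
  push_cast
  ring

theorem weak_iff : WeakTate X d m N ρ F ↔ ∀ B : HeightOneSpectrum (𝓞 F) → ℂ[X],
    IsEulerSystem X d (2 * m) N B → Tendsto (Pool.Agent.W353.EF.size (2 * m) B) (𝓝[>] 0)
      (𝓝 (-(((-1) * Pool.Agent.Q5.VL.rk ρ F : ℤ) : ℝ))) := by
  unfold WeakTate
  have h1 : (-(((-1) * Pool.Agent.Q5.VL.rk ρ F : ℤ) : ℝ)) = (rank ρ F : ℝ) := by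
    push_cast
    rw [neg_mul, one_mul, neg_neg]
    rfl
  rw [h1]
  have h2 : ∀ B : HeightOneSpectrum (𝓞 F) → ℂ[X], Pool.Agent.W353.EF.size (2 * m) B =
      fun ε : ℝ => Real.log ‖LFun B (m + 1 + ε)‖ / Real.log (1 / ε) := by
    intro B
    funext ε
    unfold Pool.Agent.W353.EF.size
    rw [pt]
  simp only [h2]

theorem power_iff (t : ℕ) : PowerTate X d m N ρ F t ↔ ∀ B : HeightOneSpectrum (𝓞 F) → ℂ[X],
    IsEulerSystem X d (2 * m) N B →
      Pool.Agent.Q5.VL.PowH (2 * m) B (t : ℤ) ((t : ℤ) * ((-1) * Pool.Agent.Q5.VL.rk ρ F)) := by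
  unfold PowerTate Pool.Agent.Q5.VL.PowH
  have h1 : ((t : ℤ) * ((-1) * Pool.Agent.Q5.VL.rk ρ F) : ℤ) = -(t * rank ρ F) := by
    have : (Pool.Agent.Q5.VL.rk ρ F : ℤ) = rank ρ F := rfl
    rw [this]
    ring
  rw [pt, ptR, h1]
  simp only [zpow_natCast]

theorem tate_iff : Tate X d m N ρ F ↔ ∀ B : HeightOneSpectrum (𝓞 F) → ℂ[X],
    IsEulerSystem X d (2 * m) N B →
      Pool.Agent.Q5.VL.PowH (2 * m) B 1 (1 * ((-1) * Pool.Agent.Q5.VL.rk ρ F)) := by
  unfold Tate Pool.Agent.Q5.VL.PowH
  have h1 : (1 * ((-1) * Pool.Agent.Q5.VL.rk ρ F) : ℤ) = -rank ρ F := by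
    have : (Pool.Agent.Q5.VL.rk ρ F : ℤ) = rank ρ F := rfl
    rw [this]
    ring
  rw [pt, ptR, h1]
  simp only [zpow_one]

theorem tate_of_weak (h : WeakTate X d m N ρ F) (hc : Continues X d m N F) :
    Tate X d m N ρ F := by
  rw [weak_iff] at h
  intro B hB
  obtain ⟨Λ, h1, h2⟩ := hc B hB
  refine ⟨Λ, h1, h2, ?_⟩
  rw [← pt] at h1 h2 ⊢
  rw [← ptR] at h2
  rw [Pool.Agent.Q5.VL.order_of_power hB (h B hB) h1 h2]
  have : (Pool.Agent.Q5.VL.rk ρ F : ℤ) = rank ρ F := rfl
  rw [this]
  congr 1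
  ring

theorem weak_of_power {t : ℕ} (ht : t ≠ 0) (h : PowerTate X d m N ρ F t) :
    WeakTate X d m N ρ F := by
  rw [weak_iff]
  rw [power_iff] at h
  intro B hB
  have h1 := (h B hB).size
  have ht' : (t : ℝ) ≠ 0 := by exact_mod_cast ht
  have h2 := h1.const_mul (t : ℝ)⁻¹
  have h3 : (t : ℝ)⁻¹ * -(((t : ℤ) * ((-1) * Pool.Agent.Q5.VL.rk ρ F) : ℤ) : ℝ) =
      -(((-1) * Pool.Agent.Q5.VL.rk ρ F : ℤ) : ℝ) := by
    push_cast
    field_simp
  rw [h3] at h2
  refine h2.congr fun ε => ?_
  rw [← mul_assoc, Int.cast_natCast, inv_mul_cancel₀ ht', one_mul]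

end

section
variable {K : Type} [Field K] [NumberField K] {n : ℕ} {X : Set (MvPolynomial (Fin n) (𝓞 K))}
  {d m N : ℕ} {V : Type} [AddCommGroup V] [Module ℚ V]
  {ρ : Representation ℚ Gal(AlgebraicClosure K/K) V}

/-- the property of the fields for the powers -/
def PT (X : Set (MvPolynomial (Fin n) (𝓞 K))) (d m N : ℕ)
    (ρ : Representation ℚ Gal(AlgebraicClosure K/K) V) (F : Type) [Field F] [NumberField F]
    [Algebra K F] (t : ℤ) : Prop :=
  ∀ B : HeightOneSpectrum (𝓞 F) → ℂ[X], IsEulerSystem X d (2 * m) N B →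
    Pool.Agent.Q5.VL.PowH (2 * m) B t (t * ((-1) * Pool.Agent.Q5.VL.rk ρ F))

/-- the property of the fields for the sizes -/
def WT (X : Set (MvPolynomial (Fin n) (𝓞 K))) (d m N : ℕ)
    (ρ : Representation ℚ Gal(AlgebraicClosure K/K) V) (F : Type) [Field F] [NumberField F]
    [Algebra K F] (t : ℤ) : Prop :=
  t ≠ 0 → ∀ B : HeightOneSpectrum (𝓞 F) → ℂ[X], IsEulerSystem X d (2 * m) N B →
    Tendsto (Pool.Agent.W353.EF.size (2 * m) B) (𝓝[>] 0)
      (𝓝 (-(((-1) * Pool.Agent.Q5.VL.rk ρ F : ℤ) : ℝ)))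

theorem isLaw_PT [FiniteDimensional ℚ V] (h : m ≤ d) : Pool.Agent.Q5.VL.IsLaw (PT X d m N ρ) :=
  Pool.Agent.Q5.VL.law_order (by omega) (-1) (fun _ _ => inferInstance)

theorem isLaw_WT [FiniteDimensional ℚ V] (h : m ≤ d) : Pool.Agent.Q5.VL.IsLaw (WT X d m N ρ) :=
  Pool.Agent.Q5.VL.law_size (by omega) (-1) (fun _ _ => inferInstance)

end

/-- **Tate's conjecture on the pole can be tested on thin families of number fields.**  Let `K` be a
number field, `X` a smooth projective variety over `K` of dimension `d`, `0 ≤ m ≤ d`, and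
`V = A^m(X) ⊗ ℚ`, or any finite dimensional rational representation of the absolute Galois group of `K`.
For `m = 1` the conjecture `Tate` over `F` says that the pole of `L(H^2(X_F), s)` at `s = 2` has the order
`rank NS(X_F)`; `WeakTate` says that `L(H^2(X_F), 2 + ε) = ε ^ (-rank NS(X_F) + o(1))`.
1. Let `𝓕` be a wide family of finite extensions of `K`.  If `WeakTate` holds for all `F` in `𝓕`, it holds
for `K`.  If `Tate` holds for all `F` in `𝓕`, then for a number `t > 0`, which depends only on `𝓕`, the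
function `L(H^{2m}(X), s)^t` has a continuation with a pole of order `t · rank`, and `Tate` holds for `K`
if `L(H^{2m}(X), s)` has a continuation.
2. The intersection of two wide families is wide, and the extensions of degree divisible by `M` form a wide
family.
3. The same as in 1 with the test fields of a prime `p`, a number `k` and an infinite set `T` of primes in
place of `𝓕`, and `t = p^k`.
4. Counterexamples spread: if `Tate` fails for `K`, then for all primes `p` with at most one exception, all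
`k` and all infinite sets `T` of primes it fails for some test field; there is no exception if
`L(H^{2m}(X), s)` has a continuation.
5. If `Tate` holds for all `F/K` with `[F:K] ∈ D`, it holds for all `F/K`.  If `WeakTate` holds for all `F/K`
with `M ∣ [F:K]`, it holds for all `F/K`.  If `Tate` holds for all `F/K` with `M ∣ [F:K]`, then for all
`F/K` the function `L(H^{2m}(X_F), s)^t`, `t = M / gcd(M, [F:K])`, has a continuation with a pole of order
`t · rank`, and `Tate` holds for `F` if `L(H^{2m}(X_F), s)` has a continuation. -/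
theorem result :
    WideLaw ∧
    (∀ (K : Type) [Field K] [NumberField K],
      (∀ 𝓕 𝓖 : Set (IntermediateField K (AlgebraicClosure K)), Wide K 𝓕 → Wide K 𝓖 →
        Wide K (𝓕 ∩ 𝓖)) ∧
      ∀ M : ℕ, 0 < M → Wide K {F | FiniteDimensional K F ∧ M ∣ Module.finrank K F}) ∧
    TestLaw ∧ SpreadLaw ∧ DegreeLaw := by
  have test : TestLaw := by
    intro p k T hp hT hinf K _ _ n X d m N V _ _ _ ρ hmd
    have hpf : Fact p.Prime := ⟨hp⟩
    refine ⟨fun h => ?_, fun h => ?_⟩
    · rw [weak_iff]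
      refine Pool.Agent.Q5.VL.gen_radical_law' (isLaw_WT (X := X) (N := N) (ρ := ρ) hmd) p hT hinf k
        (fun F _ _ _ hr hd _ => weak_iff.1 (h F ⟨hr, hd⟩)) ?_
      exact_mod_cast pow_ne_zero k hp.ne_zero
    · have h1 : PowerTate X d m N ρ K (p ^ k) := by
        rw [power_iff]
        exact Pool.Agent.Q5.VL.gen_radical_law' (isLaw_PT (X := X) (N := N) (ρ := ρ) hmd) p hT hinf k
          (fun F _ _ _ hr hd => tate_iff.1 (h F ⟨hr, hd⟩))
      exact ⟨h1, tate_of_weak (weak_of_power (pow_ne_zero k hp.ne_zero) h1)⟩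
  refine ⟨?_, fun K _ _ => ⟨fun 𝓕 𝓖 h1 h2 => Pool.Agent.Q5.HR.Wide.inter h1 h2, fun M hM =>
    Pool.Agent.Q5.HR.wide_deg hM⟩, test, ?_, ?_⟩
  · intro K _ _ 𝓕 hF
    obtain ⟨t, ht, hlaw⟩ := Pool.Agent.Q5.VL.wide_law (K := K) hF
    refine ⟨t, ht, fun n X d m N V _ _ _ ρ hmd => ⟨fun h => ?_, fun h => ?_⟩⟩
    · rw [weak_iff]
      refine hlaw _ (isLaw_WT (X := X) (N := N) (ρ := ρ) hmd) 1
        (fun F hF' _ _ => weak_iff.1 (h F hF')) ?_
      rw [mul_one]
      exact_mod_cast ht.ne'
    · have h1 : PowerTate X d m N ρ K t := by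
        rw [power_iff]
        have h2 := hlaw _ (isLaw_PT (X := X) (N := N) (ρ := ρ) hmd) 1
          (fun F hF' _ => tate_iff.1 (h F hF'))
        rw [mul_one] at h2
        exact h2
      exact ⟨h1, tate_of_weak (weak_of_power ht.ne' h1)⟩
  · intro K _ _ n X d m N V _ _ _ ρ hmd hnot
    by_cases hc : Continues X d m N K
    · refine ⟨0, fun p k T hp _ hT hinf => ?_⟩
      by_contra hcon
      push Not at hcon
      exact hnot (((test p k T hp hT hinf K n X d m N V ρ hmd).2
        (fun F _ _ _ hF => hcon F _ _ _ hF)).2 hc)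
    · by_contra hcon
      push Not at hcon
      obtain ⟨p, k, T, hp, -, hT, hinf, h⟩ := hcon 0
      obtain ⟨q, k', T', hq, hqp, hT', hinf', h'⟩ := hcon p
      have hqp' : q ≠ p := hqp.resolve_right hc
      have h1 := ((test p k T hp hT hinf K n X d m N V ρ hmd).2 (fun F _ _ _ hF => h F _ _ _ hF)).1
      have h2 := ((test q k' T' hq hT' hinf' K n X d m N V ρ hmd).2
        (fun F _ _ _ hF => h' F _ _ _ hF)).1
      apply hnot
      rw [power_iff] at h1 h2
      rw [tate_iff]
      refine Pool.Agent.Q5.VL.one_of_gcd (isLaw_PT (X := X) (N := N) (ρ := ρ) hmd) K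
        (D := {p ^ k, q ^ k'}) (fun g hg => ?_) ?_
      · have h4 := hg (p ^ k) (by simp)
        have h5 := hg (q ^ k') (by simp)
        have h6 : Nat.Coprime (p ^ k) (q ^ k') :=
          Nat.Coprime.pow _ _ ((Nat.coprime_primes hp hq).2 hqp'.symm)
        exact Nat.eq_one_of_dvd_coprimes h6 h4 h5
      · rintro d (rfl | rfl)
        · exact h1
        · exact h2
  · intro K _ _ n X d m N V _ _ _ ρ hmd
    refine ⟨fun D hD h F _ _ _ => ?_, fun M hM => ⟨fun h F _ _ _ => ?_, fun h F _ _ _ => ?_⟩⟩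
    · rw [tate_iff]
      exact Pool.Agent.Q5.VL.gen_sparse_law (isLaw_PT (X := X) (N := N) (ρ := ρ) hmd) hD.1 hD.2
        (fun F _ _ _ hF => tate_iff.1 (h F hF)) F
    · rw [weak_iff]
      refine Pool.Agent.Q5.VL.gen_power_law' (isLaw_WT (X := X) (N := N) (ρ := ρ) hmd) (M := M)
        (fun F _ _ _ hF _ => weak_iff.1 (h F hF)) F ?_
      exact_mod_cast (Nat.div_pos (Nat.le_of_dvd hM (Nat.gcd_dvd_left _ _))
        (Nat.gcd_pos_of_pos_left _ hM)).ne'
    · have h1 : PowerTate X d m N ρ F (M / M.gcd (Module.finrank K F)) := by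
        rw [power_iff]
        exact Pool.Agent.Q5.VL.gen_power_law' (isLaw_PT (X := X) (N := N) (ρ := ρ) hmd) (M := M)
          (fun F _ _ _ hF => tate_iff.1 (h F hF)) F
      exact ⟨h1, tate_of_weak (weak_of_power (Nat.div_pos (Nat.le_of_dvd hM (Nat.gcd_dvd_left _ _))
        (Nat.gcd_pos_of_pos_left _ hM)).ne' h1)⟩

end Pool.Agent.Results.MP_1f4fc7_nt.WideFamilies
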